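import Pool.Agent.PX.Stmts
import Pool.Agent.Helper58_PW.PIV

set_option autoImplicit false

/-!
# Squad PX, row PIX: pivot sets exist
-/

namespace Pool.Agent.PX.H58

open MvPolynomial
open Pool.Agent.RS (FF io io_injective)
open Pool.Agent.PW (Robust VV Piv)
open Pool.Agent.PW.H58 (notMem_vars algHom_congr PV det_VV_ne exists_point)

variable {E : Type} [Field E]

/-- The specialisation `x_l ↦ ξ_l` for `l ∉ S`. -/
noncomputable def subS (ξ : ℕ → E) (S : Finset ℕ) : MvPolynomial ℕ E →ₐ[E] MvPolynomial ℕ E :=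
  aeval fun l => if l ∈ S then X l else C (ξ l)

theorem subS_self (ξ : ℕ → E) (S : Finset ℕ) (f : MvPolynomial ℕ E) (h : f.vars ⊆ S) :
    subS ξ S f = f := by
  have h1 : subS ξ S f = (AlgHom.id E (MvPolynomial ℕ E)) f := by
    apply algHom_congr
    intro j hj
    simp [subS, h hj]
  rw [h1]
  rfl

theorem subS_const (ξ : ℕ → E) (S : Finset ℕ) (f : MvPolynomial ℕ E) (h : Disjoint f.vars S) :
    subS ξ S f = C (aeval ξ f) := by
  have h1 : subS ξ S f = ((Algebra.ofId E (MvPolynomial ℕ E)).comp (aeval ξ)) f := by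
    apply algHom_congr
    intro j hj
    have hji : j ∉ S := Finset.disjoint_left.1 h hj
    simp only [subS, aeval_X, hji, if_false, AlgHom.comp_apply]
    rfl
  rw [h1]
  rfl

/-- Pivot sets exist, over the polynomials. -/
theorem pix_aux [CharZero E] (ρ N s : ℕ) (Γ : ℕ → Finset ℕ) (y : Fin ρ → MvPolynomial ℕ E)
    (hΓ : Sym s Γ) (hy : LinearIndependent E y) (hG : ∀ a, IsG Γ (y a))
    (hN : Robust N (Submodule.span E (Set.range y))) (Y : Finset ℕ)
    (hc : Y.card + ρ * (s * s) ≤ N) :
    ∃ z : Fin ρ → ℕ, Function.Injective z ∧ (PV y z).det ≠ 0 ∧ ∀ b, z b ∉ Y := by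
  classical
  have hs : 1 ≤ s := (Finset.card_pos.2 ⟨0, hΓ.refl 0⟩).trans_le (hΓ.card 0)
  have hss : 1 ≤ s * s := Nat.mul_pos hs hs
  induction ρ with
  | zero => exact ⟨Fin.elim0, fun a => a.elim0, by simp, fun b => b.elim0⟩
  | succ ρ ih =>
    have hy' : LinearIndependent E (fun a : Fin ρ => y a.succ) :=
      hy.comp _ (Fin.succ_injective ρ)
    have hsub : Submodule.span E (Set.range fun a : Fin ρ => y a.succ) ≤
        Submodule.span E (Set.range y) := by
      apply Submodule.span_mono
      rintro _ ⟨a, rfl⟩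
      exact ⟨a.succ, rfl⟩
    have hc' : Y.card + ρ * (s * s) + s * s ≤ N := by
      rw [Nat.succ_mul] at hc
      omega
    obtain ⟨z, hz1, hz2, hz3⟩ := ih (fun a : Fin ρ => y a.succ) hy' (fun a => hG a.succ)
      (fun g hg => hN g (hsub hg)) (by omega)
    obtain ⟨ξ, hξ⟩ := exists_point _ hz2
    -- the values of the minors
    let M : Fin (ρ + 1) → MvPolynomial ℕ E := fun j =>
      (Matrix.of fun b a : Fin ρ => pderiv (z b) (y (j.succAbove a))).det
    have hM0 : M 0 = (PV (fun a : Fin ρ => y a.succ) z).det := rfl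
    let θ : Fin (ρ + 1) → E := fun j => (-1) ^ (j : ℕ) * aeval ξ (M j)
    have hθ : θ 0 ≠ 0 := by
      change (-1) ^ (((0 : Fin (ρ + 1)) : ℕ)) * aeval ξ (M 0) ≠ 0
      rw [Fin.val_zero, pow_zero, one_mul, hM0]
      exact hξ
    let g : MvPolynomial ℕ E := ∑ j, θ j • y j
    have hg0 : g ≠ 0 := by
      intro h1
      exact hθ (Fintype.linearIndependent_iff.1 hy θ h1 0)
    have hgM : g ∈ Submodule.span E (Set.range y) :=
      Submodule.sum_mem _ fun j _ => Submodule.smul_mem _ _ (Submodule.subset_span ⟨j, rfl⟩)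
    have hgN := hN g hgM hg0
    obtain ⟨i, hi1, hi2⟩ : ∃ i ∈ g.vars, i ∉ Y ∪ nb Γ (nz Γ z) := by
      by_contra hcon
      push Not at hcon
      have h1 : g.vars ⊆ Y ∪ nb Γ (nz Γ z) := fun i hi => hcon i hi
      have h2 := Finset.card_le_card h1
      have h4 : (nz Γ z).card ≤ ρ * s := by
        have h5 := Finset.card_biUnion_le_card_mul (Finset.univ : Finset (Fin ρ))
          (fun b => Γ (z b)) s (fun b _ => hΓ.card (z b))
        rwa [Finset.card_univ, Fintype.card_fin] at h5
      have h6 : (nb Γ (nz Γ z)).card ≤ ρ * (s * s) := by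
        refine (Finset.card_biUnion_le_card_mul _ _ s fun b _ => hΓ.card b).trans ?_
        rw [← mul_assoc]
        exact Nat.mul_le_mul_right s h4
      have h3 : (Y ∪ nb Γ (nz Γ z)).card ≤ Y.card + ρ * (s * s) :=
        (Finset.card_union_le _ _).trans (Nat.add_le_add_left h6 _)
      omega
    have hiY : i ∉ Y := fun h => hi2 (Finset.mem_union_left _ h)
    have hfar : ∀ b, Disjoint (Γ (z b)) (Γ i) := by
      intro b
      rw [Finset.disjoint_left]
      intro l hl hli
      apply hi2
      apply Finset.mem_union_right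
      exact Finset.mem_biUnion.2 ⟨l, Finset.mem_biUnion.2 ⟨b, Finset.mem_univ b, hl⟩,
        hΓ.symm i l hli⟩
    have hiz : ∀ b, z b ≠ i := fun b h =>
      Finset.disjoint_left.1 (hfar b) (hΓ.refl (z b)) (h ▸ hΓ.refl (z b))
    refine ⟨Fin.cons i z, ?_, ?_, ?_⟩
    · rw [Fin.cons_injective_iff]
      exact ⟨fun ⟨b, hb⟩ => hiz b hb, hz1⟩
    · intro hdet
      rw [Matrix.det_succ_row_zero] at hdet
      have h1 : subS ξ (Γ i) (∑ j : Fin (ρ + 1), (-1) ^ (j : ℕ) * PV y (Fin.cons i z) 0 j *
          ((PV y (Fin.cons i z)).submatrix Fin.succ j.succAbove).det) = pderiv i g := by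
        rw [map_sum]
        change _ = pderiv i (∑ j, θ j • y j)
        rw [map_sum]
        refine Finset.sum_congr rfl fun j _ => ?_
        rw [map_mul, map_mul, map_pow, map_neg, map_one, Derivation.map_smul]
        have h2 : PV y (Fin.cons i z) 0 j = pderiv i (y j) := rfl
        have h3 : ((PV y (Fin.cons i z)).submatrix Fin.succ j.succAbove) =
            Matrix.of fun b a : Fin ρ => pderiv (z b) (y (j.succAbove a)) := rfl
        rw [h2, h3, subS_self ξ (Γ i) _ (hG j i)]
        have h4 : subS ξ (Γ i)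
            (Matrix.of fun b a : Fin ρ => pderiv (z b) (y (j.succAbove a))).det =
            C (aeval ξ (M j)) := by
          have h5 : (subS ξ (Γ i) : MvPolynomial ℕ E →+* MvPolynomial ℕ E)
              (Matrix.of fun b a : Fin ρ => pderiv (z b) (y (j.succAbove a))).det =
              ((C : E →+* MvPolynomial ℕ E).comp (aeval ξ : MvPolynomial ℕ E →ₐ[E] E).toRingHom)
              (Matrix.of fun b a : Fin ρ => pderiv (z b) (y (j.succAbove a))).det := by
            rw [RingHom.map_det, RingHom.map_det]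
            congr 1
            ext1 b a
            change subS ξ (Γ i) (pderiv (z b) (y (j.succAbove a))) =
              C (aeval ξ (pderiv (z b) (y (j.succAbove a))))
            apply subS_const
            exact Finset.disjoint_of_subset_left (hG (j.succAbove a) (z b)) (hfar b)
          exact h5
        rw [h4, smul_eq_C_mul]
        change (-1) ^ (j : ℕ) * pderiv i (y j) * C (aeval ξ (M j)) =
          C ((-1) ^ (j : ℕ) * aeval ξ (M j)) * pderiv i (y j)
        rw [C_mul, C_pow, C_neg, C_1]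
        ring
      rw [hdet, map_zero] at h1
      exact notMem_vars i g h1.symm hi1
    · intro b
      refine Fin.cases ?_ ?_ b
      · rw [Fin.cons_zero]
        exact hiY
      · intro b
        rw [Fin.cons_succ]
        exact hz3 b

theorem pix : PixStmt := by
  intro E _ _ ρ N s Γ y hΓ hy hG hN Y hc
  obtain ⟨z, h1, h2, h3⟩ := pix_aux ρ N s Γ y hΓ hy hG hN Y hc
  exact ⟨z, ⟨h1, (det_VV_ne y z).2 h2⟩, h3⟩

end Pool.Agent.PX.H58
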