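import Pool.Agent.Helper82_PW.Hit
import Pool.Agent.Helper58_PW.Basic
import Pool.Agent.Helper25_RS.FRE

set_option autoImplicit false

/-!
# Squad PX: a common set of hub variables
-/

namespace Pool.Agent.PX

open MvPolynomial
open Pool.Agent.RS (FF io io_injective)

/-- `f` is a polynomial in `x_0, ..., x_(n-1)` and, up to the variables of `G`, every variable outside `G`
interacts with at most `c` variables. -/
def IsFormG {E : Type} [Field E] (c n : ℕ) (G : Finset ℕ) (f : MvPolynomial ℕ E) : Prop :=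
  f.vars ⊆ Finset.range n ∧ ∀ i ∉ G, ((pderiv i f).vars \ G).card ≤ c

/-- `T = f_1 ... f_N (a_1 / b_1 + ... + a_M / b_M)`. -/
def IsClG (E : Type) [Field E] (c n : ℕ) (G : Finset ℕ) (T : MvPolynomial ℕ E) : Prop :=
  ∃ (N M : ℕ) (f : Fin N → MvPolynomial ℕ E) (a : Fin M → MvPolynomial ℕ E)
    (b : Fin M → Fin c → MvPolynomial ℕ E),
    (∀ v, IsFormG c n G (f v)) ∧
    (∀ t, (a t).vars ⊆ Finset.range n ∧ ∀ s ∈ (a t).support, (s.support \ G).card ≤ c) ∧
    (∀ t l, IsFormG c n G (b t l) ∧ b t l ≠ 0) ∧
    T * ∏ t, ∏ l, b t l = (∏ v, f v) * ∑ t, a t * ∏ t' ∈ Finset.univ.erase t, ∏ l, b t' l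

/-- `F = C(T_1, ..., T_m)`, at most `k` of the clusters are algebraically independent. -/
def IsPCG (E : Type) [Field E] (k c n : ℕ) (G : Finset ℕ) (F : MvPolynomial ℕ E) : Prop :=
  ∃ (m : ℕ) (T : Fin m → MvPolynomial ℕ E) (C : MvPolynomial (Fin m) E),
    (∀ i, IsClG E c n G (T i)) ∧
    (∀ s : Finset (Fin m), AlgebraicIndependent E (fun i : s => T i) → s.card ≤ k) ∧
    F = aeval T C

end Pool.Agent.PX

namespace Pool.Agent.PX.H58

open MvPolynomial
open Pool.Agent.PX
open Pool.Agent.RS (FF io io_injective)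
open Pool.Agent.PW.H58 (notMem_vars algHom_congr)

variable {E : Type} [Field E]

/-- The variables of `G` become constants of the field of fractions. -/
noncomputable def psi (G : Finset ℕ) : MvPolynomial ℕ E →ₐ[E] MvPolynomial ℕ (FF E) :=
  aeval fun i => if i ∈ G then C (io E (X i)) else X i

/-- Evaluating at the generic point gives the polynomial back. -/
theorem eval_psi (G : Finset ℕ) (f : MvPolynomial ℕ E) :
    eval (fun i => io E (X i)) (psi G f) = io E f := by
  have h : ((eval fun i => io E (X i)) : MvPolynomial ℕ (FF E) →+* FF E).comp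
      (psi G : MvPolynomial ℕ E →ₐ[E] MvPolynomial ℕ (FF E)).toRingHom = io E := by
    apply MvPolynomial.ringHom_ext
    · intro a
      change eval _ (psi G (C a)) = io E (C a)
      have h1 : psi G (C a : MvPolynomial ℕ E) = C (algebraMap E (FF E) a) := by
        have h2 : (C a : MvPolynomial ℕ E) = algebraMap E (MvPolynomial ℕ E) a := rfl
        rw [h2, AlgHom.commutes]
        rfl
      rw [h1, eval_C]
      rfl
    · intro i
      change eval _ (psi G (X i)) = io E (X i)
      rw [psi, aeval_X]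
      split_ifs
      · rw [eval_C]
      · rw [eval_X]
  exact congrArg (fun g : MvPolynomial ℕ E →+* FF E => g f) h

theorem psi_injective (G : Finset ℕ) : Function.Injective (psi (E := E) G) := by
  intro f g h
  apply io_injective
  rw [← eval_psi G f, ← eval_psi G g, h]

theorem psi_monomial (G : Finset ℕ) (m : ℕ →₀ ℕ) (a : E) :
    ∃ e : FF E, psi G (monomial m a) = monomial (m.filter (· ∉ G)) e := by
  classical
  induction m using Finsupp.induction with
  | zero =>
    refine ⟨algebraMap E (FF E) a, ?_⟩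
    have h1 : (monomial (0 : ℕ →₀ ℕ) a : MvPolynomial ℕ E) = algebraMap E (MvPolynomial ℕ E) a := rfl
    rw [h1, AlgHom.commutes, Finsupp.filter_zero]
    rfl
  | single_add i k m hi hk ih =>
    obtain ⟨e, he⟩ := ih
    have h1 : (monomial (Finsupp.single i k + m) a : MvPolynomial ℕ E) =
        X i ^ k * monomial m a := by
      rw [X_pow_eq_monomial, monomial_mul, one_mul]
    rw [h1, map_mul, map_pow, he, Finsupp.filter_add]
    by_cases hiG : i ∈ G
    · refine ⟨(io E (X i)) ^ k * e, ?_⟩
      have h2 : Finsupp.filter (fun x => x ∉ G) (Finsupp.single i k) = 0 :=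
        Finsupp.filter_single_of_neg (fun x => x ∉ G) (by simpa using hiG)
      rw [psi, aeval_X, if_pos hiG, h2, zero_add, ← C_pow, C_mul_monomial]
    · refine ⟨e, ?_⟩
      have h2 : Finsupp.filter (fun x => x ∉ G) (Finsupp.single i k) = Finsupp.single i k :=
        Finsupp.filter_single_of_pos (fun x => x ∉ G) hiG
      rw [psi, aeval_X, if_neg hiG, h2, X_pow_eq_monomial, monomial_mul, one_mul]

theorem psi_support (G : Finset ℕ) (f : MvPolynomial ℕ E) (s : ℕ →₀ ℕ)
    (hs : s ∈ (psi G f).support) : ∃ u ∈ f.support, s = u.filter (· ∉ G) := by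
  classical
  rw [f.as_sum, map_sum] at hs
  obtain ⟨u, hu, hsu⟩ := Finset.mem_biUnion.1 (support_sum hs)
  obtain ⟨e, he⟩ := psi_monomial G u (coeff u f)
  rw [he] at hsu
  exact ⟨u, hu, Finset.mem_singleton.1 (support_monomial_subset hsu)⟩

theorem psi_vars (G : Finset ℕ) (f : MvPolynomial ℕ E) : (psi G f).vars ⊆ f.vars \ G := by
  classical
  intro i hi
  rw [mem_vars_iff_mem_support] at hi
  obtain ⟨s, hs, his⟩ := hi
  obtain ⟨u, hu, rfl⟩ := psi_support G f s hs
  rw [Finsupp.support_filter, Finset.mem_filter] at his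
  exact Finset.mem_sdiff.2 ⟨(mem_vars_iff_mem_support i).2 ⟨u, hu, his.1⟩, his.2⟩

theorem pderiv_psi (G : Finset ℕ) (i : ℕ) (hi : i ∉ G) (f : MvPolynomial ℕ E) :
    pderiv i (psi G f) = psi G (pderiv i f) := by
  classical
  induction f using MvPolynomial.induction_on with
  | C a =>
    have h1 : psi G (C a : MvPolynomial ℕ E) = C (algebraMap E (FF E) a) := by
      have h2 : (C a : MvPolynomial ℕ E) = algebraMap E (MvPolynomial ℕ E) a := rfl
      rw [h2, AlgHom.commutes]
      rfl
    rw [h1, pderiv_C, pderiv_C, map_zero]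
  | add p q hp hq => rw [map_add, map_add, hp, hq, map_add, map_add]
  | mul_X p n hp =>
    rw [map_mul, Derivation.leibniz, hp, Derivation.leibniz, map_add, smul_eq_mul, smul_eq_mul,
      smul_eq_mul, smul_eq_mul, map_mul, map_mul]
    have h1 : pderiv i (psi G (X n) : MvPolynomial ℕ (FF E)) =
        psi G (pderiv i (X n : MvPolynomial ℕ E)) := by
      by_cases hin : i = n
      · subst hin
        rw [psi, aeval_X, if_neg hi, pderiv_X_self, pderiv_X_self, map_one]
      · rw [pderiv_X_of_ne (Ne.symm hin), map_zero, psi, aeval_X]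
        split_ifs with hn
        · exact pderiv_C
        · exact pderiv_X_of_ne (Ne.symm hin)
    rw [h1]

theorem form_psi {c n : ℕ} {G : Finset ℕ} {f : MvPolynomial ℕ E} (hf : IsFormG c n G f) :
    IsFormG c n ∅ (psi G f) := by
  classical
  refine ⟨(psi_vars G f).trans (Finset.sdiff_subset.trans hf.1), fun i _ => ?_⟩
  rw [Finset.sdiff_empty]
  by_cases hi : i ∈ G
  · have h1 : i ∉ (psi G f).vars := fun h => (Finset.mem_sdiff.1 (psi_vars G f h)).2 hi
    rw [pderiv_eq_zero_of_notMem_vars h1]
    simp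
  · rw [pderiv_psi G i hi]
    exact (Finset.card_le_card (psi_vars G _)).trans (hf.2 i hi)

theorem cl_psi {c n : ℕ} {G : Finset ℕ} {T : MvPolynomial ℕ E} (hT : IsClG E c n G T) :
    IsClG (FF E) c n ∅ (psi G T) := by
  classical
  obtain ⟨N, M, f, a, b, hf, ha, hb, hT⟩ := hT
  refine ⟨N, M, fun v => psi G (f v), fun t => psi G (a t), fun t l => psi G (b t l),
    fun v => form_psi (hf v), fun t => ⟨?_, ?_⟩, fun t l => ⟨form_psi (hb t l).1, ?_⟩, ?_⟩
  · exact (psi_vars G _).trans (Finset.sdiff_subset.trans (ha t).1)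
  · intro s hs
    obtain ⟨u, hu, rfl⟩ := psi_support G _ s hs
    rw [Finset.sdiff_empty]
    refine (Finset.card_le_card ?_).trans ((ha t).2 u hu)
    intro i hi
    rw [Finsupp.support_filter, Finset.mem_filter] at hi
    exact Finset.mem_sdiff.2 hi
  · intro h
    apply (hb t l).2
    apply psi_injective G
    rw [map_zero]
    exact h
  · have h := congrArg (psi G) hT
    simpa only [map_mul, map_prod, map_sum] using h

theorem pc_psi {k c n : ℕ} {G : Finset ℕ} {F : MvPolynomial ℕ E} (hF : IsPCG E k c n G F) :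
    IsPCG (FF E) k c n ∅ (psi G F) := by
  classical
  obtain ⟨m, T, Cc, hT, hk, rfl⟩ := hF
  refine ⟨m, fun i => psi G (T i), map (algebraMap E (FF E)) Cc, fun i => cl_psi (hT i), ?_, ?_⟩
  · intro s hs
    apply hk s
    have h1 : AlgebraicIndependent E fun i : s => psi G (T i) :=
      hs.restrictScalars (algebraMap E (FF E)).injective
    exact AlgebraicIndependent.of_comp (psi G) h1
  · rw [aeval_map_algebraMap, ← comp_aeval_apply]

/-- The hitting set for a common set of hub variables. -/
theorem hub (k c : ℕ) (hit : ∃ t0 : ℕ, ∀ (E : Type) [Field E] [CharZero E] (n t : ℕ), t0 ≤ t →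
      ∀ F : MvPolynomial ℕ E, IsPCG E k c n ∅ F → F ≠ 0 →
        ∃ w z : Fin t → E, eval (Pool.Agent.UO.point n w z) F ≠ 0) :
    ∃ t0 : ℕ, ∀ (E : Type) [Field E] [CharZero E] (n t : ℕ), t0 ≤ t →
      ∀ (F : MvPolynomial ℕ E) (G : Finset ℕ), G.card ≤ c → IsPCG E k c n G F → F ≠ 0 →
        F.vars ⊆ Finset.range n →
        ∃ w z : Fin t → E, eval (Pool.Agent.UO.point n w z) F ≠ 0 := by
  classical
  obtain ⟨t0, ht0⟩ := hit
  refine ⟨t0 + c, ?_⟩
  intro E _ _ n t ht F G hG hF hF0 hFn
  have hchar : CharZero (FF E) := charZero_of_injective_algebraMap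
    (algebraMap E (FF E)).injective
  have hpsi0 : psi G F ≠ 0 := by
    intro h
    apply hF0
    apply psi_injective G
    rw [h, map_zero]
  obtain ⟨w, z, hwz⟩ := ht0 (FF E) n t0 le_rfl (psi G F) (pc_psi hF) hpsi0
  -- the polynomial in the parameters
  let P : MvPolynomial (Fin t0 ⊕ Fin t0 ⊕ ℕ) E :=
    aeval (fun i => if i ∈ G then X (Sum.inr (Sum.inr i)) else
      Pool.Agent.UO.point n (fun j => (X (Sum.inl j) : MvPolynomial (Fin t0 ⊕ Fin t0 ⊕ ℕ) E))
        (fun j => X (Sum.inr (Sum.inl j))) i) F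
  have hP : P ≠ 0 := by
    intro h0
    apply hwz
    have h1 : aeval (Sum.elim w (Sum.elim z fun i => io E (X i))) P =
        eval (Pool.Agent.UO.point n w z) (psi G F) := by
      change aeval _ (aeval _ F) = _
      rw [← AlgHom.comp_apply]
      have h2 : ((aeval (Sum.elim w (Sum.elim z fun i => io E (X i))) :
          MvPolynomial (Fin t0 ⊕ Fin t0 ⊕ ℕ) E →ₐ[E] FF E).comp
          (aeval (fun i => if i ∈ G then X (Sum.inr (Sum.inr i)) else
            Pool.Agent.UO.point n
              (fun j => (X (Sum.inl j) : MvPolynomial (Fin t0 ⊕ Fin t0 ⊕ ℕ) E))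
              (fun j => X (Sum.inr (Sum.inl j))) i))) =
          ((aeval (Pool.Agent.UO.point n w z) :
            MvPolynomial ℕ (FF E) →ₐ[FF E] FF E).restrictScalars E).comp (psi G) := by
        apply MvPolynomial.algHom_ext
        intro i
        rw [AlgHom.comp_apply, AlgHom.comp_apply, aeval_X, psi, aeval_X]
        split_ifs with hiG
        · rw [aeval_X]
          change io E (X i) = aeval (Pool.Agent.UO.point n w z) (C (io E (X i)))
          rw [aeval_C]
          rfl
        · change _ = aeval (Pool.Agent.UO.point n w z) (X i)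
          rw [aeval_X]
          unfold Pool.Agent.UO.point
          split_ifs
          · simp only [map_sum, map_mul, map_prod, map_sub, aeval_X, Sum.elim_inl, Sum.elim_inr,
              map_natCast]
          · rw [map_zero]
      rw [h2, AlgHom.comp_apply]
      change aeval (Pool.Agent.UO.point n w z) (psi G F) = _
      rw [aeval_eq_eval]
    rw [← h1, h0, map_zero]
  obtain ⟨v, hv⟩ := RS.H77.ex_ne P hP
  obtain ⟨w', z', hp⟩ := RS.H25.fre E n t0 t (G.filter (· < n)) (fun j => v (Sum.inl j))
    (fun j => v (Sum.inr (Sum.inl j))) (fun i => v (Sum.inr (Sum.inr i)))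
    (fun j hj => (Finset.mem_filter.1 hj).2)
    (le_trans (Nat.add_le_add_left ((Finset.card_filter_le _ _).trans hG) _) ht)
  refine ⟨w', z', ?_⟩
  have h1 : eval (Pool.Agent.UO.point n w' z') F = eval v P := by
    change _ = eval v (aeval _ F)
    rw [RS.H77.eval_aeval]
    refine MvPolynomial.eval₂Hom_congr' rfl (fun i hi _ => ?_) rfl
    have hin : i < n := Finset.mem_range.1 (hFn hi)
    rw [hp i]
    by_cases hiG : i ∈ G
    · simp [hiG, hin]
    · simp only [hiG, Finset.mem_filter, false_and, if_false]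
      unfold Pool.Agent.UO.point
      rw [if_pos hin, if_pos hin]
      simp only [map_sum, map_mul, map_prod, map_sub, eval_X, map_natCast]
  rw [h1]
  exact hv

end Pool.Agent.PX.H58
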